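import Pool.Agent.H91.CF.TA

/-!
# Complete family (MP_347b49_nt), row AABL: smooth sums from sharp sums
-/

set_option autoImplicit false

open MeasureTheory Set Filter
open scoped Real

namespace Pool.Agent.H47.CF

open Pool.Agent.H31.CN Pool.Agent.H91.CF
open Pool.Agent.H96.CN (Av Per2)

theorem pf_ABL : T_ABL := by
  intro G η hη hG hsupp a c ha ε hε
  have hGd : Differentiable ℝ G := hG.differentiable (by simp)
  have hGc : Continuous G := hG.continuous
  have hG'c : Continuous (deriv G) := hG.continuous_deriv (by simp)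
  obtain ⟨M, hM⟩ := (isCompact_Icc (a := (0 : ℝ)) (b := 2)).exists_bound_of_continuousOn
    hG'c.continuousOn
  set M' : ℝ := |M| + 1 with hM'
  have hM'0 : 0 < M' := by positivity
  have hMM : ∀ u ∈ Icc (0 : ℝ) 2, |deriv G u| ≤ M' := by
    intro u hu
    have h1 := hM u hu
    rw [Real.norm_eq_abs] at h1
    have h2 := le_abs_self M
    linarith
  have hG0 : G 0 = 0 := hsupp 0 (fun h => absurd h.1 (not_le.2 hη))
  have hG2 : G 2 = 0 := hsupp 2 (fun h => by have := h.2; norm_num at this)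
  -- the error term
  set ε₁ : ℝ := ε / (8 * M') with hε₁
  have hε₁0 : 0 < ε₁ := by positivity
  obtain ⟨Y₁, hY₁⟩ := ha ε₁ hε₁0
  set T₁ : ℝ := max Y₁ 0 with hT₁
  have hT₁0 : 0 ≤ T₁ := le_max_right _ _
  set K : ℝ := (∑ k ∈ Finset.Icc 1 ⌊T₁⌋₊, |a k|) + |c| * T₁ with hK
  have hK0 : 0 ≤ K := add_nonneg (Finset.sum_nonneg fun _ _ => abs_nonneg _) (by positivity)
  have hr : ∀ t : ℝ, 0 ≤ t → |(∑ k ∈ Finset.Icc 1 ⌊t⌋₊, a k) - c * t| ≤ ε₁ * t + K := by
    intro t ht
    rcases le_or_gt T₁ t with h | h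
    · have h1 := hY₁ t ((le_max_left _ _).trans h)
      linarith
    · have h1 : |∑ k ∈ Finset.Icc 1 ⌊t⌋₊, a k| ≤ ∑ k ∈ Finset.Icc 1 ⌊T₁⌋₊, |a k| := by
        refine (Finset.abs_sum_le_sum_abs _ _).trans ?_
        refine Finset.sum_le_sum_of_subset_of_nonneg ?_ (fun _ _ _ => abs_nonneg _)
        exact Finset.Icc_subset_Icc_right (Nat.floor_le_floor h.le)
      have h2 : |c * t| ≤ |c| * T₁ := by
        rw [abs_mul, abs_of_nonneg ht]
        exact mul_le_mul_of_nonneg_left h.le (abs_nonneg _)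
      have h3 : |(∑ k ∈ Finset.Icc 1 ⌊t⌋₊, a k) - c * t| ≤
          |∑ k ∈ Finset.Icc 1 ⌊t⌋₊, a k| + |c * t| := abs_sub _ _
      have h4 : 0 ≤ ε₁ * t := by positivity
      rw [hK]
      linarith
  refine ⟨max 1 (4 * M' * K / ε), ?_⟩
  intro Y hY
  have hY1 : 1 ≤ Y := (le_max_left _ _).trans hY
  have hYK : 4 * M' * K / ε ≤ Y := (le_max_right _ _).trans hY
  have hY0 : 0 < Y := by linarith
  -- the function
  set f : ℝ → ℝ := fun t => G (t / Y) with hf
  have hfd : ∀ t, HasDerivAt f (deriv G (t / Y) * (1 / Y)) t := by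
    intro t
    have h1 : HasDerivAt G (deriv G (t / Y)) (t / Y) := (hGd (t / Y)).hasDerivAt
    have h2 : HasDerivAt (fun t : ℝ => t / Y) (1 / Y) t := (hasDerivAt_id t).div_const Y
    exact h1.comp t h2
  have hfd' : deriv f = fun t => deriv G (t / Y) * (1 / Y) := funext fun t => (hfd t).deriv
  have hf'c : Continuous (deriv f) := by
    rw [hfd']
    exact (hG'c.comp (continuous_id.div_const Y)).mul continuous_const
  have hfc : Continuous f := hGc.comp (continuous_id.div_const Y)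
  -- the coefficients
  set a' : ℕ → ℝ := fun k => if k = 0 then 0 else a k with ha'
  have hA : ∀ n : ℕ, ∑ k ∈ Finset.Icc 0 n, a' k = ∑ k ∈ Finset.Icc 1 n, a k := by
    intro n
    rw [← Finset.sum_subset (Finset.Icc_subset_Icc_left (Nat.zero_le 1) :
      Finset.Icc 1 n ⊆ Finset.Icc 0 n)]
    · refine Finset.sum_congr rfl fun k hk => ?_
      have := (Finset.mem_Icc.1 hk).1
      rw [ha']
      simp only
      rw [if_neg (by omega)]
    · intro k hk hk'
      have h1 := Finset.mem_Icc.1 hk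
      have h2 : k = 0 := by
        by_contra h3
        exact hk' (Finset.mem_Icc.2 ⟨by omega, h1.2⟩)
      rw [ha', h2]
      simp
  -- Abel summation
  have hb0 : (0 : ℝ) ≤ 2 * Y := by linarith
  have habel := sum_mul_eq_sub_integral_mul a' (f := f) hb0 (fun t _ => (hfd t).differentiableAt)
    (hf'c.continuousOn.integrableOn_Icc)
  have hf2 : f (2 * Y) = 0 := by
    show G (2 * Y / Y) = 0
    rw [mul_div_cancel_right₀ _ hY0.ne', hG2]
  rw [hf2, zero_mul, zero_sub] at habel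
  have hlhs : ∑ k ∈ Finset.Icc 0 ⌊2 * Y⌋₊, f k * a' k =
      ∑ D ∈ Finset.Icc 1 ⌊Y⌋₊, G (D / Y) * a D := by
    have hsub : Finset.Icc 1 ⌊Y⌋₊ ⊆ Finset.Icc 0 ⌊2 * Y⌋₊ :=
      Finset.Icc_subset_Icc (Nat.zero_le _) (Nat.floor_le_floor (by linarith))
    rw [← Finset.sum_subset hsub]
    · refine Finset.sum_congr rfl fun k hk => ?_
      have := (Finset.mem_Icc.1 hk).1
      rw [ha', hf]
      simp only
      rw [if_neg (by omega)]
    · intro k hk hk'
      by_cases h0 : k = 0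
      · rw [ha', h0]
        simp
      · have h1 : ⌊Y⌋₊ < k := by
          by_contra h2
          exact hk' (Finset.mem_Icc.2 ⟨by omega, by omega⟩)
        have h2 : Y < k := (Nat.floor_lt hY0.le).1 h1
        have h3 : f k = 0 := by
          apply hsupp
          intro h4
          have h5 := h4.2
          rw [div_le_one hY0] at h5
          linarith
        rw [h3, zero_mul]
  -- the main term
  have hint1 : ∫ t in Ioc 0 (2 * Y), deriv f t * t = -(∫ t in Ioc 0 (2 * Y), f t) := by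
    rw [← intervalIntegral.integral_of_le hb0, ← intervalIntegral.integral_of_le hb0]
    have h1 := intervalIntegral.integral_mul_deriv_eq_deriv_mul (a := 0) (b := 2 * Y)
      (u := fun t : ℝ => t) (v := f) (u' := fun _ => 1) (v' := deriv f)
      (fun t _ => hasDerivAt_id t) (fun t _ => by
        rw [hfd']
        exact hfd t) (by simp) (hf'c.intervalIntegrable _ _)
    have h2 : (∫ t in (0 : ℝ)..(2 * Y), deriv f t * t) =
        ∫ t in (0 : ℝ)..(2 * Y), t * deriv f t :=
      intervalIntegral.integral_congr fun t _ => mul_comm _ _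
    rw [h2, h1, hf2]
    simp
  have hint2 : ∫ t in Ioc 0 (2 * Y), f t = Y * ∫ u in Ioi (0 : ℝ), G u := by
    have h1 : ∫ u in Ioi (0 : ℝ), G u = ∫ u in Ioc (0 : ℝ) 2, G u := by
      refine setIntegral_eq_of_subset_of_forall_sdiff_eq_zero measurableSet_Ioi
        (fun u hu => hu.1) ?_
      intro u hu
      apply hsupp
      intro h2
      exact hu.2 ⟨hu.1, by linarith [h2.2]⟩
    rw [h1, ← intervalIntegral.integral_of_le hb0,
      ← intervalIntegral.integral_of_le (by norm_num : (0 : ℝ) ≤ 2)]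
    have h2 := intervalIntegral.integral_comp_div (a := 0) (b := 2 * Y) G hY0.ne'
    show ∫ t in (0 : ℝ)..(2 * Y), G (t / Y) = _
    rw [h2, zero_div, mul_div_cancel_right₀ _ hY0.ne', smul_eq_mul]
  -- the error
  have hi1 : IntegrableOn (fun t => deriv f t * ∑ k ∈ Finset.Icc 0 ⌊t⌋₊, a' k)
      (Ioc 0 (2 * Y)) :=
    (integrableOn_mul_sum_Icc a' le_rfl (hf'c.continuousOn.integrableOn_Icc)).mono_set
      Ioc_subset_Icc_self
  have hi2 : IntegrableOn (fun t => deriv f t * t * c) (Ioc 0 (2 * Y)) :=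
    ((((hf'c.mul continuous_id).mul continuous_const).continuousOn).integrableOn_Icc).mono_set
      Ioc_subset_Icc_self
  have hdiff : (∫ t in Ioc 0 (2 * Y), deriv f t * ∑ k ∈ Finset.Icc 0 ⌊t⌋₊, a' k) =
      -(Y * (∫ u in Ioi (0 : ℝ), G u) * c) +
        ∫ t in Ioc 0 (2 * Y), deriv f t * ((∑ k ∈ Finset.Icc 1 ⌊t⌋₊, a k) - c * t) := by
    have h1 : (∫ t in Ioc 0 (2 * Y), deriv f t * ((∑ k ∈ Finset.Icc 1 ⌊t⌋₊, a k) - c * t)) =
        (∫ t in Ioc 0 (2 * Y), deriv f t * ∑ k ∈ Finset.Icc 0 ⌊t⌋₊, a' k) -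
          ∫ t in Ioc 0 (2 * Y), deriv f t * t * c := by
      rw [← integral_sub hi1 hi2]
      refine integral_congr_ae (Eventually.of_forall fun t => ?_)
      show deriv f t * ((∑ k ∈ Finset.Icc 1 ⌊t⌋₊, a k) - c * t) =
        deriv f t * ∑ k ∈ Finset.Icc 0 ⌊t⌋₊, a' k - deriv f t * t * c
      rw [hA]
      ring
    rw [h1, integral_mul_const, hint1, hint2]
    ring
  have herr : |∫ t in Ioc 0 (2 * Y), deriv f t * ((∑ k ∈ Finset.Icc 1 ⌊t⌋₊, a k) - c * t)| ≤
      ε * Y := by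
    have h1 : ∀ t ∈ Ioc 0 (2 * Y),
        ‖deriv f t * ((∑ k ∈ Finset.Icc 1 ⌊t⌋₊, a k) - c * t)‖ ≤ M' / Y * (ε₁ * (2 * Y) + K) := by
      intro t ht
      rw [norm_mul, Real.norm_eq_abs, Real.norm_eq_abs]
      have h2 : |deriv f t| ≤ M' / Y := by
        rw [hfd']
        simp only
        rw [abs_mul, abs_of_pos (by positivity : (0 : ℝ) < 1 / Y)]
        have h3 : |deriv G (t / Y)| ≤ M' := hMM _ ⟨div_nonneg ht.1.le hY0.le, by
          rw [div_le_iff₀ hY0]
          exact ht.2⟩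
        calc |deriv G (t / Y)| * (1 / Y) ≤ M' * (1 / Y) :=
              mul_le_mul_of_nonneg_right h3 (by positivity)
          _ = M' / Y := by ring
      have h4 : |(∑ k ∈ Finset.Icc 1 ⌊t⌋₊, a k) - c * t| ≤ ε₁ * (2 * Y) + K := by
        refine (hr t ht.1.le).trans ?_
        have := mul_le_mul_of_nonneg_left ht.2 hε₁0.le
        linarith
      exact mul_le_mul h2 h4 (abs_nonneg _) (by positivity)
    have h2 := norm_setIntegral_le_of_norm_le_const (μ := volume) (s := Ioc 0 (2 * Y))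
      (by rw [Real.volume_Ioc]; exact ENNReal.ofReal_lt_top) h1
    rw [Real.norm_eq_abs] at h2
    refine h2.trans ?_
    have h3 : volume.real (Ioc 0 (2 * Y)) = 2 * Y := by
      rw [Real.volume_real_Ioc_of_le hb0]
      ring
    rw [h3]
    have h4 : M' / Y * (ε₁ * (2 * Y) + K) * (2 * Y) = 4 * M' * ε₁ * Y + 2 * (M' * K) := by
      field_simp
      ring
    have h5 : 4 * M' * ε₁ * Y = ε * Y / 2 := by
      rw [hε₁]
      field_simp
      ring
    have h6 : 4 * M' * K ≤ Y * ε := (div_le_iff₀ hε).1 hYK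
    rw [h4, h5]
    linarith
  have hfin : (∑ D ∈ Finset.Icc 1 ⌊Y⌋₊, G (D / Y) * a D) -
      Y * (∫ u in Ioi (0 : ℝ), G u) * c =
      -(∫ t in Ioc 0 (2 * Y), deriv f t * ((∑ k ∈ Finset.Icc 1 ⌊t⌋₊, a k) - c * t)) := by
    rw [← hlhs, habel, hdiff]
    ring
  rw [hfin, abs_neg]
  exact herr

end Pool.Agent.H47.CF
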