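import Pool.Agent.H95.CF.Targets

/-!
# Complete family (MP_347b49_nt), row PKER: the kernel in terms of vectors
-/

set_option autoImplicit false

open NumberField Module MeasureTheory Set Filter
open scoped nonZeroDivisors Real

namespace Pool.Agent.H47.CF

open Pool.Agent.H31.CN Pool.Agent.H95.CF

theorem sqf_prod (S : Finset ℕ) (h : ∀ p ∈ S, p.Prime) : Squarefree (∏ p ∈ S, p) := by
  induction S using Finset.induction_on with
  | empty => simp
  | insert p S hp ih =>
    rw [Finset.prod_insert hp, Nat.squarefree_mul_iff]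
    refine ⟨?_, (h p (Finset.mem_insert_self p S)).squarefree,
      ih (fun q hq => h q (Finset.mem_insert_of_mem hq))⟩
    apply Nat.Coprime.prod_right
    intro q hq
    exact (Nat.coprime_primes (h p (Finset.mem_insert_self p S))
      (h q (Finset.mem_insert_of_mem hq))).mpr (fun hpq => hp (hpq ▸ hq))

/-- `f` divided by the product of some of its prime factors -/
theorem div_prod (f : ℕ) (hf : 1 ≤ f) (T : Finset ℕ) (hT : T ⊆ f.primeFactors) :
    (∏ p ∈ T, p) ∣ f ∧ f / (∏ p ∈ T, p) =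
      ∏ p ∈ f.primeFactors, p ^ (f.factorization p - if p ∈ T then 1 else 0) := by
  classical
  have hd0 : 0 < ∏ p ∈ T, p :=
    Finset.prod_pos fun p hp => (Nat.prime_of_mem_primeFactors (hT hp)).pos
  have h1 : (∏ p ∈ f.primeFactors, p ^ (f.factorization p - if p ∈ T then 1 else 0)) *
      ∏ p ∈ T, p = f := by
    have h2 : ∏ p ∈ T, p = ∏ p ∈ f.primeFactors, (if p ∈ T then p else 1) := by
      rw [Finset.prod_ite_mem, Finset.inter_eq_right.2 hT]
    rw [h2, ← Finset.prod_mul_distrib]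
    conv_rhs => rw [← Nat.prod_factorization_pow_eq_self (Nat.one_le_iff_ne_zero.1 hf)]
    refine Finset.prod_congr rfl fun p hp => ?_
    have hk : 1 ≤ f.factorization p :=
      (Nat.prime_of_mem_primeFactors hp).factorization_pos_of_dvd (Nat.one_le_iff_ne_zero.1 hf)
        (Nat.dvd_of_mem_primeFactors hp)
    by_cases hpT : p ∈ T
    · rw [if_pos hpT, if_pos hpT, ← pow_succ, Nat.sub_add_cancel hk]
    · rw [if_neg hpT, if_neg hpT, mul_one, Nat.sub_zero]
  refine ⟨⟨_, (mul_comm _ _).trans h1 |>.symm⟩, ?_⟩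
  exact Nat.div_eq_of_eq_mul_left hd0 h1.symm

theorem div_dvd (f : ℕ) (hf : 1 ≤ f) (T : Finset ℕ) (hT : T ⊆ f.primeFactors) (z : ℤ) :
    ((f / (∏ p ∈ T, p) : ℕ) : ℤ) ∣ z ↔
      ∀ p ∈ f.primeFactors, (p : ℤ) ^ (f.factorization p - if p ∈ T then 1 else 0) ∣ z := by
  classical
  rw [(div_prod f hf T hT).2]
  push_cast
  constructor
  · intro h p hp
    exact (Finset.dvd_prod_of_mem (fun p : ℕ =>
      (p : ℤ) ^ (f.factorization p - if p ∈ T then 1 else 0)) hp).trans h
  · intro h
    refine Finset.prod_dvd_of_coprime ?_ h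
    intro p hp q hq hpq
    refine IsCoprime.pow ?_
    exact Nat.isCoprime_iff_coprime.2 ((Nat.coprime_primes (Nat.prime_of_mem_primeFactors hp)
      (Nat.prime_of_mem_primeFactors hq)).2 hpq)

theorem pf_KER (hDE1 : T_DE1) (hDE2 : T_DE2) : T_KER := by
  classical
  intro D K _ _ σ Q I α β b f G _ _ cl n H hD h2 hdisc hFB hf hRG hHG c c' v v' hv hv' hu hu'
  have hpr : ∀ p ∈ f.primeFactors, p.Prime := fun p hp => Nat.prime_of_mem_primeFactors hp
  -- the subgroups
  have hT : ∀ T ∈ f.primeFactors.powerset,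
      ((cl (b c v))⁻¹ * cl (b c' v') ∈ (⨆ p ∈ T, H p : Subgroup G) ↔
        (cl (b c v))⁻¹ * cl (b c' v') ∈ Hd K f cl (∏ p ∈ T, p)) ∧
      Nat.card (⨆ p ∈ T, H p : Subgroup G) = ∏ p ∈ T, n p ∧ (∏ p ∈ T, p) ∣ f := by
    intro T hT
    have hTs := Finset.mem_powerset.1 hT
    have hTp : ∀ p ∈ T, p.Prime := fun p hp => hpr p (hTs hp)
    have hdf := (div_prod f hf T hTs).1
    have hsq := sqf_prod T hTp
    have hpf : (∏ p ∈ T, p).primeFactors = T := Nat.primeFactors_prod hTp
    have h3 := hHG.sup _ hdf hsq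
    have h4 := hHG.card _ hdf hsq
    have h5 := hHG.car _ hdf hsq
    rw [hpf] at h3 h4
    refine ⟨?_, ?_, hdf⟩
    · rw [← h3, ← h5]
      rfl
    · rw [← h3]
      exact h4
  unfold Kg
  by_cases hcc : c = c'
  · rw [if_pos hcc]
    subst hcc
    unfold kr
    rw [Finset.prod_sub]
    refine Finset.sum_congr rfl fun T hTm => ?_
    obtain ⟨h3, h4, h5⟩ := hT T hTm
    have hTs := Finset.mem_powerset.1 hTm
    have h6 : (cl (b c v))⁻¹ * cl (b c v') ∈ (⨆ p ∈ T, H p : Subgroup G) ↔
        ∀ p ∈ f.primeFactors, (p : ℤ) ^ (f.factorization p - if p ∈ T then 1 else 0) ∣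
          dt v v' := by
      rw [h3, ← div_dvd f hf T hTs]
      constructor
      · intro h
        exact (hDE1 D K σ Q I α β b f G cl hD h2 hdisc hFB hf hRG _ h5 c c v v' hv hv' hu hu' h).2
      · intro h
        exact hDE2 D K σ Q I α β b f G cl hFB hf hRG _ h5 c v v' hv hv' hu hu' h
    have h7 : ∏ p ∈ f.primeFactors \ T,
        (if (p : ℤ) ^ (f.factorization p) ∣ dt v v' then (1 : ℝ) else 0) =
        if ∀ p ∈ f.primeFactors \ T, (p : ℤ) ^ (f.factorization p) ∣ dt v v' then 1 else 0 :=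
      Finset.prod_boole
    have h8 : ∏ p ∈ T, (if (p : ℤ) ^ (f.factorization p - 1) ∣ dt v v' then (1 : ℝ) else 0) =
        if ∀ p ∈ T, (p : ℤ) ^ (f.factorization p - 1) ∣ dt v v' then 1 else 0 :=
      Finset.prod_boole
    rw [Finset.prod_div_distrib, h7, h8, h4]
    push_cast
    by_cases h9 : (cl (b c v))⁻¹ * cl (b c v') ∈ (⨆ p ∈ T, H p : Subgroup G)
    · have h10 := h6.1 h9
      have h11 : ∀ p ∈ f.primeFactors \ T, (p : ℤ) ^ (f.factorization p) ∣ dt v v' := by
        intro p hp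
        have := h10 p (Finset.mem_sdiff.1 hp).1
        rwa [if_neg (Finset.mem_sdiff.1 hp).2, Nat.sub_zero] at this
      have h12 : ∀ p ∈ T, (p : ℤ) ^ (f.factorization p - 1) ∣ dt v v' := by
        intro p hp
        have := h10 p (hTs hp)
        rwa [if_pos hp] at this
      rw [if_pos h9, if_pos h11, if_pos h12]
      ring
    · rw [if_neg h9]
      by_cases h11 : ∀ p ∈ f.primeFactors \ T, (p : ℤ) ^ (f.factorization p) ∣ dt v v'
      · by_cases h12 : ∀ p ∈ T, (p : ℤ) ^ (f.factorization p - 1) ∣ dt v v'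
        · exfalso
          apply h9
          rw [h6]
          intro p hp
          by_cases hpT : p ∈ T
          · rw [if_pos hpT]
            exact h12 p hpT
          · rw [if_neg hpT, Nat.sub_zero]
            exact h11 p (Finset.mem_sdiff.2 ⟨hp, hpT⟩)
        · rw [if_neg h12]
          ring
      · rw [if_neg h11]
        ring
  · rw [if_neg hcc]
    refine Finset.sum_eq_zero fun T hTm => ?_
    obtain ⟨h3, h4, h5⟩ := hT T hTm
    rw [if_neg, mul_zero, zero_div]
    intro h
    exact hcc (hDE1 D K σ Q I α β b f G cl hD h2 hdisc hFB hf hRG _ h5 c c' v v' hv hv' hu hu'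
      (h3.1 h)).1

end Pool.Agent.H47.CF
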